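import Pool.Agent.DKM.Average
import Pool.Agent.DKM.Fail

/-!
MP_4a6ba3_nt: the denominator a(n) of the sum of k^(mu k), k <= n, is close to n#:
(1) n# <= a(n) exp(5 n^(2/3)) for every n >= 1;
(2) for every eps > 0 there is C with n# <= a(n) exp(C sqrt n) for all but at most eps N of the
    n <= N, for every N;
(3) a(n) differs from n# for at least N/72 - 3 of the n <= N.
-/

namespace Pool.Agent.Results.MP_4a6ba3_nt.NearPrimorial

open Pool.Agent.DKM

theorem result :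
    (∀ n : ℕ, 1 ≤ n → (primorial n : ℝ) ≤ a n * Real.exp (5 * (n : ℝ) ^ (2 / 3 : ℝ))) ∧
    (∀ ε : ℝ, 0 < ε → ∃ C : ℝ, ∀ N : ℕ,
      (((Finset.Icc 1 N).filter (fun n : ℕ =>
        (a n : ℝ) * Real.exp (C * Real.sqrt n) < primorial n)).card : ℝ) ≤ ε * N) ∧
    (∀ N : ℕ, (N : ℝ) / 72 - 3 ≤
      (((Finset.Icc 1 N).filter (fun n : ℕ => a n ≠ primorial n)).card : ℝ)) :=
  ⟨bound_all, bound_most, fail_many⟩

end Pool.Agent.Results.MP_4a6ba3_nt.NearPrimorial
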